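import Mathlib
import Pool.Agent.Y822.G.PolA

set_option autoImplicit false

/-!
# The fundamental lemma of the sieve for almost all systems of polynomials

For all but few of the systems of `k` polynomials from any finite family of irreducible polynomials (of
bounded degree and of polynomial height) the number of `n ≤ X` such that all the values are free of prime
factors up to `X ^ δ` is the expected one up to a factor `(1 ± ε) ^ k`. The exponent `δ` does not depend on
`k`, so that all the values have a bounded number of prime factors, and `k` may grow with `X`.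
-/

namespace Pool.Agent.Results.MP_51e72e_nt.AlmostAllSystems

open Finset Polynomial

open Classical in
/-- `ω_H(p)`: the number of `n ∈ {1, …, p}` with `∏ f(n) ≡ 0 (mod p)`. -/
noncomputable def omega (H : Finset ℤ[X]) (p : ℕ) : ℕ :=
  ((Icc 1 p).filter (fun n : ℕ => (p : ℤ) ∣ ∏ f ∈ H, f.eval (n : ℤ))).card

/-- The density `∏ (1 - ω_H(p) / p)`, the product over the primes `p ≤ y`. -/
noncomputable def density (H : Finset ℤ[X]) (y : ℝ) : ℝ :=
  ∏ p ∈ (Icc 1 ⌊y⌋₊).filter Nat.Prime, (1 - (omega H p : ℝ) / p)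

open Classical in
/-- The number of `1 ≤ n ≤ X` such that every value `|f(n)|`, `f ∈ H`, has at most `r` prime factors, counted
with multiplicity, all of them larger than `y`. -/
noncomputable def almost (H : Finset ℤ[X]) (r : ℕ) (y : ℝ) (X : ℕ) : ℕ :=
  ((Icc 1 X).filter (fun n : ℕ => ∀ f ∈ H, (f.eval (n : ℤ)).natAbs.primeFactorsList.length ≤ r ∧
    ∀ q : ℕ, q.Prime → q ∣ (f.eval (n : ℤ)).natAbs → y < q)).card

open Classical in
/-- `π_H(X)`: the number of `1 ≤ n ≤ X` such that every value `|f(n)|`, `f ∈ H`, is prime. -/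
noncomputable def primes (H : Finset ℤ[X]) (X : ℕ) : ℕ :=
  ((Icc 1 X).filter (fun n : ℕ => ∀ f ∈ H, (f.eval (n : ℤ)).natAbs.Prime)).card

open Pool.Agent.Y822.G

lemma omega_eq (H : Finset ℤ[X]) {p : ℕ} (hp : p.Prime) : omega H p = rho (QR RP H) p := by
  classical
  rw [← rho_Icc (per_QR (fun f _ => Pool.Agent.Y779.GL.per f)) p]
  unfold omega
  congr 1
  ext n
  rw [mem_filter, mem_filter]
  refine and_congr_right fun _ => ?_
  unfold QR RP
  exact (Nat.prime_iff_prime_int.1 hp).dvd_finsetProd_iff _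

lemma density_eq (H : Finset ℤ[X]) (y : ℝ) : density H y = VV (QR RP H) ⌊y⌋₊ := by
  unfold density VV ps
  refine prod_congr rfl fun p hp => ?_
  rw [omega_eq H (mem_filter.1 hp).2]

open Classical in
/-- Let `D, C` be natural numbers and `0 < ε ≤ 1`. There are `δ > 0`, `r`, `c > 0` and `B` such that for all
large `X`, all `k ≥ 1` with `(k log log X)² ≤ c log X`, and EVERY finite family `F` of irreducible polynomials
of degrees between `1` and `D`, with coefficients at most `X ^ C` in absolute value, no two of them equal up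
to sign: for all but at most `(|F| choose k - 1) log(X) ^ (B k)` of the sets `H` of `k` polynomials of `F`
without a fixed prime divisor the number of `n ≤ X` such that all the values `|f(n)|` have at most `r` prime
factors, all of them larger than `X ^ δ`, lies between `(1 - ε) ^ k` and `(1 + ε) ^ k` times
`X ∏ (1 - ω_H(p) / p)`, the product over the primes up to `X ^ δ`, and the number of `n ≤ X` such that all
the values are prime is at most `(1 + ε) ^ k X ∏ (1 - ω_H(p) / p)`. -/
theorem result (D C : ℕ) (ε : ℝ) (hε : 0 < ε) (hε1 : ε ≤ 1) : ∃ δ : ℝ, 0 < δ ∧ ∃ r : ℕ, ∃ c : ℝ, 0 < c ∧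
    ∃ B X₀ : ℕ, ∀ X : ℕ, X₀ ≤ X → ∀ k : ℕ, 1 ≤ k →
    ((k : ℝ) * Real.log (Real.log X)) ^ 2 ≤ c * Real.log X → ∀ F : Finset ℤ[X],
    (∀ f ∈ F, Irreducible f ∧ 1 ≤ f.natDegree ∧ f.natDegree ≤ D ∧ ∀ i, |f.coeff i| ≤ (X : ℤ) ^ C) →
    (∀ f ∈ F, ∀ g ∈ F, f ≠ -g) →
    (((F.powersetCard k).filter (fun H => (∀ p : ℕ, p.Prime → omega H p < p) ∧
      ¬ ((1 - ε) ^ k * (X * density H ((X : ℝ) ^ δ)) ≤ almost H r ((X : ℝ) ^ δ) X ∧
        (almost H r ((X : ℝ) ^ δ) X : ℝ) ≤ (1 + ε) ^ k * (X * density H ((X : ℝ) ^ δ)) ∧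
        (primes H X : ℝ) ≤ (1 + ε) ^ k * (X * density H ((X : ℝ) ^ δ))))).card : ℝ) ≤
      F.card.choose (k - 1) * Real.log X ^ (B * k) := by
  obtain ⟨K, X₁, hpol⟩ := Pool.Agent.Y779.GL.pol.2.2 D C
  obtain ⟨δ, hδ, hδ8, c, hc, B, N₀, FIN⟩ := fin2 (D + 1) K D (by omega) ε hε hε1
  obtain ⟨r, hr⟩ := exists_nat_gt ((K : ℝ) / δ)
  have e1 : ∀ᶠ X : ℕ in Filter.atTop, (2 : ℝ) ≤ (X : ℝ) ^ δ :=
    ((tendsto_rpow_atTop hδ).comp tendsto_natCast_atTop_atTop).eventually (Filter.eventually_ge_atTop 2)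
  obtain ⟨X₂, hX₂⟩ := Filter.eventually_atTop.1 e1
  refine ⟨δ, hδ, r, c, hc, B, max (max N₀ X₁) (max X₂ 3), ?_⟩
  intro X hX k hk hkX F hF hF2
  have hXN : N₀ ≤ X := ((le_max_left _ _).trans (le_max_left _ _)).trans hX
  have hX1 : X₁ ≤ X := ((le_max_right _ _).trans (le_max_left _ _)).trans hX
  have hX2 : X₂ ≤ X := ((le_max_left _ _).trans (le_max_right _ _)).trans hX
  have hX3 : 3 ≤ X := ((le_max_right _ _).trans (le_max_right _ _)).trans hX
  have h2 := hX₂ X hX2
  have hXr : (1 : ℝ) ≤ X := by exact_mod_cast (by omega : 1 ≤ X)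
  have hX1r : (1 : ℝ) < X := by exact_mod_cast (by omega : 1 < X)
  have hX0 : (0 : ℝ) < X := by linarith
  have hL0 : 0 ≤ Real.log X := Real.log_nonneg hXr
  obtain ⟨z, hz⟩ : ∃ z : ℕ, z = ⌊(X : ℝ) ^ δ⌋₊ := ⟨_, rfl⟩
  have hz2 : 2 ≤ z := by
    rw [hz]
    exact Nat.le_floor (by exact_mod_cast h2)
  have hzlt : ∀ q : ℕ, (X : ℝ) ^ δ < q ↔ z < q := by
    intro q
    rw [hz, Nat.floor_lt (by positivity)]
  have hfam := fam_pol F hF hF2 (hpol X hX1)
  -- the sifting function
  have hsft : ∀ H : Finset ℤ[X], H ⊆ F → almost H r ((X : ℝ) ^ δ) X = sft (QR RP H) z X := by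
    intro H hH
    unfold almost sft
    congr 1
    ext n
    rw [mem_filter, mem_filter, mem_Icc]
    refine and_congr_right fun hn => ?_
    constructor
    · rintro h p hp ⟨f, hf, hd⟩
      unfold ps at hp
      rw [mem_filter, mem_Icc] at hp
      have h3 := (h f hf).2 p hp.2 (Int.natCast_dvd.1 hd)
      rw [hzlt] at h3
      omega
    · intro h f hf
      have hq : ∀ q : ℕ, q.Prime → q ∣ (f.eval (n : ℤ)).natAbs → (X : ℝ) ^ δ < q := by
        intro q hqp hqd
        rw [hzlt]
        by_contra hle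
        push Not at hle
        refine h q ?_ ⟨f, hf, Int.natCast_dvd.2 hqd⟩
        unfold ps
        rw [mem_filter, mem_Icc]
        exact ⟨⟨hqp.one_lt.le, hle⟩, hqp⟩
      refine ⟨?_, hq⟩
      obtain ⟨-, -, g3, g4⟩ := hF f (hH hf)
      have h0 : (f.eval (n : ℤ)).natAbs ≠ 0 := by
        intro h0
        have h4 := hq 2 Nat.prime_two (by rw [h0]; exact dvd_zero _)
        rw [hzlt] at h4
        omega
      refine Pool.Agent.Y822.F.len_le (N := X) (w := δ) (by omega) hδ.le h0 ?_ (fun q hqp hqd => (hq q hqp hqd).le)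
      have h5 := (hpol X hX1 f g3 g4).1 n hn.2
      have h6 : (((f.eval (n : ℤ)).natAbs : ℕ) : ℝ) ≤ (X : ℝ) ^ K := by
        have h7 : (((f.eval (n : ℤ)).natAbs : ℕ) : ℤ) ≤ ((X ^ K : ℕ) : ℤ) := by
          rw [Int.natCast_natAbs]
          push_cast
          exact h5
        exact_mod_cast h7
      refine lt_of_le_of_lt h6 ?_
      rw [← Real.rpow_natCast]
      apply Real.rpow_lt_rpow_of_exponent_lt hX1r
      rw [div_lt_iff₀ hδ] at hr
      have : δ * ((r : ℝ) + 1) = r * δ + δ := by ring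
      rw [this]
      linarith
  -- the prime values
  have hprm : ∀ H : Finset ℤ[X], H ⊆ F → H.card = k →
      primes H X ≤ sft (QR RP H) z X + D * k * (2 * z + 1) := by
    intro H hH hHk
    have h3 : (Icc 1 X).filter (fun n : ℕ => ∀ f ∈ H, (f.eval (n : ℤ)).natAbs.Prime) ⊆
        ((Icc 1 X).filter (fun n => ∀ p ∈ ps z, ¬ QR RP H p n)) ∪
          H.biUnion (fun f => (Icc 1 X).filter (fun n : ℕ => (f.eval (n : ℤ)).natAbs ≤ z)) := by
      intro n hn
      rw [mem_filter] at hn
      rw [mem_union, mem_filter, mem_biUnion]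
      by_cases h4 : ∃ f ∈ H, (f.eval (n : ℤ)).natAbs ≤ z
      · right
        obtain ⟨f, hf, h5⟩ := h4
        exact ⟨f, hf, mem_filter.2 ⟨hn.1, h5⟩⟩
      · left
        push Not at h4
        refine ⟨hn.1, ?_⟩
        rintro p hp ⟨f, hf, hd⟩
        unfold ps at hp
        rw [mem_filter, mem_Icc] at hp
        have h5 := (Nat.prime_dvd_prime_iff_eq hp.2 (hn.2 f hf)).1 (Int.natCast_dvd.1 hd)
        have h6 := h4 f hf
        omega
    have h4 := (card_le_card h3).trans (card_union_le _ _)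
    have h5 : (H.biUnion (fun f => (Icc 1 X).filter (fun n : ℕ => (f.eval (n : ℤ)).natAbs ≤ z))).card ≤
        D * k * (2 * z + 1) := by
      refine card_biUnion_le.trans ?_
      calc ∑ f ∈ H, ((Icc 1 X).filter (fun n : ℕ => (f.eval (n : ℤ)).natAbs ≤ z)).card
          ≤ ∑ _f ∈ H, D * (2 * z + 1) := sum_le_sum fun f hf =>
            (few_small f (hF f (hH hf)).2.1 X z).trans
              (Nat.mul_le_mul_right _ (hF f (hH hf)).2.2.1)
        _ = D * k * (2 * z + 1) := by rw [sum_const, hHk, smul_eq_mul]; ring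
    unfold primes sft
    convert h4.trans (Nat.add_le_add_left h5 _) using 2
  -- the end
  have h3 := FIN X hXN k hk hkX ℤ[X] RP (AP F) hfam
    ((F.powersetCard k).filter (fun H => (∀ p : ℕ, p.Prime → omega H p < p) ∧
      ¬ ((1 - ε) ^ k * (X * density H ((X : ℝ) ^ δ)) ≤ almost H r ((X : ℝ) ^ δ) X ∧
        (almost H r ((X : ℝ) ^ δ) X : ℝ) ≤ (1 + ε) ^ k * (X * density H ((X : ℝ) ^ δ)) ∧
        (primes H X : ℝ) ≤ (1 + ε) ^ k * (X * density H ((X : ℝ) ^ δ))))) (fun H hH => by
    rw [mem_filter, mem_powersetCard] at hH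
    obtain ⟨⟨b1, b2⟩, b3, b4⟩ := hH
    refine ⟨?_, fun p hp => by rw [← omega_eq H hp]; exact b3 p hp, fun hcon => b4 ?_⟩
    · rw [mem_powersetCard]
      refine ⟨fun f hf => ?_, b2⟩
      unfold AP
      rw [mem_filter]
      refine ⟨b1 hf, fun p hp => ?_⟩
      by_contra hall
      push Not at hall
      have h5 := b3 p hp
      have h6 : omega H p = p := by
        unfold omega
        rw [filter_true_of_mem]
        · simp
        · intro n _
          exact (hall n).trans (dvd_prod_of_mem _ hf)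
      omega
    · rw [density_eq, hsft H b1, ← hz]
      rw [← hz] at hcon
      obtain ⟨c1, c2⟩ := hcon
      have h7 : ((primes H X : ℕ) : ℝ) ≤ (sft (QR RP H) z X : ℝ) + ((D * k * (2 * z + 1) : ℕ) : ℝ) := by
        exact_mod_cast hprm H b1 b2
      have h8 : (0 : ℝ) ≤ ((D * k * (2 * z + 1) : ℕ) : ℝ) := Nat.cast_nonneg _
      exact ⟨c1, by linarith, by linarith⟩)
  refine h3.trans (mul_le_mul_of_nonneg_right ?_ (pow_nonneg hL0 _))
  exact_mod_cast Nat.choose_le_choose _ (card_le_card (filter_subset _ _))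

end Pool.Agent.Results.MP_51e72e_nt.AlmostAllSystems
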