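import Pool.Agent.Y820.LF.Fin

/-!
# Prime values of linear polynomials after adding a bounded number of powers of `b` to the constant terms

For linear polynomials `f i = a i x + h i` with bounded leading coefficients and constant terms up to `B X`
(systems without a fixed prime divisor) one can add at most `K` powers of `b` to each of the constant terms, such that
for the resulting system the asymptotic formula of the Bateman-Horn conjecture (here: Hardy and Littlewood,
Dickson) holds up to a relative error of `ε` for all `N` between `X / m` and `X`; `K` depends on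
`b, k, Q, B, m, ε` alone. The sums of powers can be the same for all the systems of an arbitrary family, up to a
proportion `ρ` of its members.

Method: averages over random sets of exponents in windows of the digits of a correlation sum of `k` linear
forms, a second moment for each factor of the product by the inequality of Cauchy and Schwarz for Gram
matrices, Vaughan's identity and the sieve. Libraries: W93, TH892, TH894, H373R2, H560R3 (starting files),
Y820 (helper820; tasks by helper692, helper71, helper514, helper515, helper484).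
-/

set_option autoImplicit false

namespace Pool.Agent.Results.MP_51e72e_nt.LinearFormsPlusPowers

open Finset Filter

/-- `π_F(N)`: the number of the `n` with `1 ≤ n ≤ N` for which all the values `a i * n + h i` are primes. -/
def piF {k : ℕ} (a h : Fin k → ℕ) (N : ℕ) : ℕ := ((Icc 1 N).filter (fun n : ℕ => ∀ i, (a i * n + h i).Prime)).card

/-- `ω_F(p)`: the number of the `n` in `{1, ..., p}` for which `p` divides the product of the `a i * n + h i`. -/
def omegaF {k : ℕ} (a h : Fin k → ℕ) (p : ℕ) : ℕ := ((Icc 1 p).filter (fun n : ℕ => p ∣ ∏ i, (a i * n + h i))).card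

/-- There is no fixed prime divisor: `ω_F(p) < p` for all primes `p`. -/
def NoFixedDivisor {k : ℕ} (a h : Fin k → ℕ) : Prop := ∀ p : ℕ, p.Prime → omegaF a h p < p

/-- The partial products `∏_{p ≤ z} (1 - ω_F(p) / p) / (1 - 1 / p) ^ k` of `C_F`. -/
noncomputable def partialC {k : ℕ} (a h : Fin k → ℕ) (z : ℕ) : ℝ :=
  ∏ p ∈ (Icc 1 z).filter Nat.Prime, (1 - (omegaF a h p : ℝ) / p) / (1 - 1 / (p : ℝ)) ^ k

/-- The product `C_F` converges, `C_F > 0`, and the formula
`π_F(N) = C_F N / (log f_1(N) ... log f_k(N))` holds with a relative error of at most `ε` for ALL `N` between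
`X / m` and `X`. -/
def Formula {k : ℕ} (ε : ℝ) (m X : ℕ) (a h : Fin k → ℕ) : Prop :=
  NoFixedDivisor a h ∧ ∃ C : ℝ, 0 < C ∧ Tendsto (partialC a h) atTop (nhds C) ∧ ∀ N : ℕ, N ≤ X → X ≤ m * N →
    |(piF a h N : ℝ) - C * (N / ∏ i, Real.log (a i * N + h i : ℕ))| ≤ ε * (C * (N / ∏ i, Real.log (a i * N + h i : ℕ)))

lemma omega_eq {k : ℕ} (a h : Fin k → ℕ) (p : ℕ) (hp : p.Prime) :
    Pool.Agent.Y820.LF.nuF (fun i => (a i : ℤ)) (fun i => (h i : ℤ)) p = omegaF a h p := by
  have h0 : ∀ n : ℕ, (∃ i, (p : ℤ) ∣ (a i : ℤ) * (n : ℤ) + (h i : ℤ)) ↔ p ∣ ∏ i, (a i * n + h i) := by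
    intro n
    rw [Prime.dvd_finsetProd_iff hp.prime]
    constructor
    · rintro ⟨i, hi⟩
      refine ⟨i, mem_univ i, ?_⟩
      have e : (a i : ℤ) * (n : ℤ) + (h i : ℤ) = ((a i * n + h i : ℕ) : ℤ) := by push_cast; ring
      rw [e, Int.natCast_dvd_natCast] at hi
      exact hi
    · rintro ⟨i, _, hi⟩
      refine ⟨i, ?_⟩
      have e : (a i : ℤ) * (n : ℤ) + (h i : ℤ) = ((a i * n + h i : ℕ) : ℤ) := by push_cast; ring
      rw [e, Int.natCast_dvd_natCast]
      exact hi
  unfold Pool.Agent.Y820.LF.nuF omegaF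
  simp only [h0]
  have hp0 : 0 < p := hp.pos
  have hmod : ∀ n : ℕ, p ∣ ∏ i, (a i * (n + p) + h i) ↔ p ∣ ∏ i, (a i * n + h i) := by
    intro n
    rw [Prime.dvd_finsetProd_iff hp.prime, Prime.dvd_finsetProd_iff hp.prime]
    have e : ∀ i, a i * (n + p) + h i = (a i * n + h i) + a i * p := fun i => by ring
    simp only [e]
    constructor
    · rintro ⟨i, hi, hd⟩
      exact ⟨i, hi, (Nat.dvd_add_left (Dvd.intro_left _ rfl)).1 hd⟩
    · rintro ⟨i, hi, hd⟩
      exact ⟨i, hi, (Nat.dvd_add_left (Dvd.intro_left _ rfl)).2 hd⟩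
  refine card_bij (fun n _ => if n = 0 then p else n) ?_ ?_ ?_
  · intro n hn
    rw [mem_filter, mem_range] at hn
    rw [mem_filter, mem_Icc]
    by_cases h1 : n = 0
    · rw [if_pos h1]
      refine ⟨⟨hp0, le_refl _⟩, ?_⟩
      have := (hmod 0).2 (by rw [h1] at hn; exact hn.2)
      rwa [zero_add] at this
    · rw [if_neg h1]
      exact ⟨⟨by omega, by omega⟩, hn.2⟩
  · intro n hn n' hn' he
    rw [mem_filter, mem_range] at hn hn'
    by_cases h1 : n = 0 <;> by_cases h2 : n' = 0 <;> simp only [h1, h2, if_true, if_false] at he ⊢ <;> omega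
  · intro n hn
    rw [mem_filter, mem_Icc] at hn
    by_cases h1 : n = p
    · refine ⟨0, ?_, by rw [if_pos rfl, h1]⟩
      rw [mem_filter, mem_range]
      refine ⟨hp0, (hmod 0).1 ?_⟩
      rw [zero_add, ← h1]
      rw [← h1] at hn
      exact hn.2
    · refine ⟨n, ?_, by rw [if_neg (by omega)]⟩
      rw [mem_filter, mem_range]
      exact ⟨by omega, hn.2⟩

lemma part_eq {k : ℕ} (a h : Fin k → ℕ) :
    Pool.Agent.Y820.LF.singF (fun i => (a i : ℤ)) (fun i => (h i : ℤ)) = partialC a h := by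
  funext z
  unfold Pool.Agent.Y820.LF.singF partialC
  apply prod_congr rfl
  intro p hp
  rw [omega_eq a h p (mem_filter.1 hp).2]

lemma adm_iff {k : ℕ} (a h : Fin k → ℕ) :
    Pool.Agent.Y820.LF.AdmF (fun i => (a i : ℤ)) (fun i => (h i : ℤ)) ↔ NoFixedDivisor a h := by
  unfold Pool.Agent.Y820.LF.AdmF NoFixedDivisor
  constructor
  · intro h1 p hp
    rw [← omega_eq a h p hp]
    exact h1 p hp
  · intro h1 p hp
    rw [omega_eq a h p hp]
    exact h1 p hp

lemma count_eq {k : ℕ} (a h : Fin k → ℕ) (N : ℕ) :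
    Pool.Agent.Y820.LF.cntF (fun i => (a i : ℤ)) (fun i => (h i : ℤ)) N = piF a h N := by
  unfold Pool.Agent.Y820.LF.cntF piF
  apply congrArg
  apply filter_congr
  intro n _
  have h1 : ∀ i, ((a i : ℤ) * (n : ℤ) + (h i : ℤ)).toNat = a i * n + h i := by
    intro i
    have e : (a i : ℤ) * (n : ℤ) + (h i : ℤ) = ((a i * n + h i : ℕ) : ℤ) := by push_cast; ring
    rw [e, Int.toNat_natCast]
  simp only [h1]

lemma pos {k : ℕ} (a h : Fin k → ℕ) (ha : ∀ i, 1 ≤ a i) (N : ℕ) (hN : 1 ≤ N) :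
    Pool.Agent.Y820.LF.PosF (fun i => (a i : ℤ)) (fun i => (h i : ℤ)) N := by
  intro i
  have h1 := ha i
  have h2 : 1 ≤ a i * N := Nat.mul_pos h1 hN
  have h3 : (1 : ℤ) ≤ (a i : ℤ) * (N : ℤ) := by exact_mod_cast h2
  constructor <;> push_cast <;> omega

/-- from `log ^ k` to the product of the logarithms of the values -/
lemma conv {k : ℕ} (ε : ℝ) (hε : 0 < ε) (M : ℕ) : ∃ n0 : ℕ, ∀ N : ℕ, n0 ≤ N → ∀ a h : Fin k → ℕ, (∀ i, 1 ≤ a i) →
    (∀ i, a i * N + h i ≤ M * N) → ∀ c C : ℝ, 0 < C →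
    |c - C * (N / Real.log N ^ k)| ≤ min ε 1 / 3 * (C * (N / Real.log N ^ k)) →
    |c - C * (N / ∏ i, Real.log (a i * N + h i : ℕ))| ≤ ε * (C * (N / ∏ i, Real.log (a i * N + h i : ℕ))) := by
  -- choose δ with (1 + δ) ^ k ≤ 1 + min ε 1 / 3
  obtain ⟨δ, hδ0, hδ⟩ : ∃ δ : ℝ, 0 < δ ∧ (1 + δ) ^ k ≤ 1 + min ε 1 / 3 := by
    have h1 : Tendsto (fun x : ℝ => (1 + x) ^ k) (nhdsWithin 0 (Set.Ioi 0)) (nhds ((1 + 0) ^ k)) := by
      apply Tendsto.mono_left _ nhdsWithin_le_nhds
      exact (Continuous.tendsto (by fun_prop) 0)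
    rw [add_zero, one_pow] at h1
    have h2 : ∀ᶠ x in nhdsWithin (0 : ℝ) (Set.Ioi 0), (1 + x) ^ k < 1 + min ε 1 / 3 := by
      apply h1.eventually_lt_const
      have : 0 < min ε 1 := lt_min hε one_pos
      linarith
    obtain ⟨x, hx1, hx2⟩ := (h2.and self_mem_nhdsWithin).exists
    exact ⟨x, hx2, hx1.le⟩
  obtain ⟨n1, hn1⟩ : ∃ n1 : ℕ, ∀ N : ℕ, n1 ≤ N → 1 ≤ Real.log N ∧ Real.log M ≤ δ * Real.log N := by
    have h1 : Tendsto (fun N : ℕ => Real.log N) atTop atTop := Real.tendsto_log_atTop.comp tendsto_natCast_atTop_atTop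
    have h2 := (h1.eventually_ge_atTop 1).and (h1.eventually_ge_atTop (Real.log M / δ))
    obtain ⟨n1, hn1⟩ := eventually_atTop.1 h2
    refine ⟨n1, fun N hN => ⟨(hn1 N hN).1, ?_⟩⟩
    have := (hn1 N hN).2
    rw [div_le_iff₀ hδ0] at this
    linarith [mul_comm (Real.log N) δ]
  refine ⟨n1 + 1, fun N hN a h ha hM c C hC hc => ?_⟩
  obtain ⟨hL1, hLM⟩ := hn1 N (by omega)
  have hN1 : 1 ≤ N := by omega
  have hNr : (1 : ℝ) ≤ N := by exact_mod_cast hN1
  set L := Real.log N with hL
  have hlo : ∀ i, L ≤ Real.log (a i * N + h i : ℕ) := by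
    intro i
    apply Real.log_le_log (by linarith)
    have : N ≤ a i * N + h i := by nlinarith [ha i]
    exact_mod_cast this
  have hhi : ∀ i, Real.log (a i * N + h i : ℕ) ≤ (1 + δ) * L := by
    intro i
    have h1 : (1 : ℝ) ≤ (a i * N + h i : ℕ) := by
      have : 1 ≤ a i * N + h i := by nlinarith [ha i]
      exact_mod_cast this
    have hMp : 0 < M := by
      by_contra hcon
      have : M = 0 := by omega
      have h2 := hM i
      rw [this, zero_mul] at h2
      have h3 : 1 ≤ a i * N := Nat.mul_pos (ha i) hN1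
      omega
    have hMr : (0 : ℝ) < M := by exact_mod_cast hMp
    have h2 : Real.log (a i * N + h i : ℕ) ≤ Real.log ((M * N : ℕ) : ℝ) := by
      apply Real.log_le_log (by linarith)
      exact_mod_cast hM i
    rw [Nat.cast_mul, Real.log_mul hMr.ne' (by linarith)] at h2
    linarith
  set P := ∏ i, Real.log (a i * N + h i : ℕ) with hP
  have hPlo : L ^ k ≤ P := by
    rw [hP]
    calc L ^ k = ∏ _i : Fin k, L := by rw [prod_const, card_univ, Fintype.card_fin]
      _ ≤ _ := prod_le_prod (fun i _ => by linarith) (fun i _ => hlo i)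
  have hPhi : P ≤ (1 + min ε 1 / 3) * L ^ k := by
    rw [hP]
    calc ∏ i, Real.log (a i * N + h i : ℕ) ≤ ∏ _i : Fin k, ((1 + δ) * L) :=
          prod_le_prod (fun i _ => by linarith [hlo i]) (fun i _ => hhi i)
      _ = (1 + δ) ^ k * L ^ k := by rw [prod_const, card_univ, Fintype.card_fin, mul_pow]
      _ ≤ _ := mul_le_mul_of_nonneg_right hδ (by positivity)
  have hLk : 0 < L ^ k := by positivity
  have hPp : 0 < P := lt_of_lt_of_le hLk hPlo
  have he0 : 0 < min ε 1 := lt_min hε one_pos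
  have he1 : min ε 1 ≤ ε := min_le_left _ _
  have he2 : min ε 1 ≤ 1 := min_le_right _ _
  set e := min ε 1 with he
  -- multiply by P
  have hCN : 0 < C * N := by positivity
  have e1 : C * (N / L ^ k) = C * N / L ^ k := by ring
  have e2 : C * (N / P) = C * N / P := by ring
  rw [e1] at hc
  rw [e2]
  have h1 : |c * L ^ k - C * N| ≤ e / 3 * (C * N) := by
    have := mul_le_mul_of_nonneg_right hc hLk.le
    rw [← abs_of_pos hLk, ← abs_mul, abs_of_pos hLk, sub_mul, div_mul_cancel₀ _ hLk.ne'] at this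
    calc |c * L ^ k - C * N| ≤ _ := this
      _ = e / 3 * (C * N) := by field_simp
  have h2 : |c * P - C * N| ≤ ε * (C * N) := by
    have hR : c * P - C * N = (c * L ^ k - C * N) * (P / L ^ k) + C * N * (P / L ^ k - 1) := by
      field_simp
      ring
    have hr1 : 1 ≤ P / L ^ k := (one_le_div hLk).2 hPlo
    have hr2 : P / L ^ k ≤ 1 + e / 3 := (div_le_iff₀ hLk).2 hPhi
    rw [hR]
    calc _ ≤ |(c * L ^ k - C * N) * (P / L ^ k)| + |C * N * (P / L ^ k - 1)| := abs_add_le _ _
      _ = |c * L ^ k - C * N| * (P / L ^ k) + C * N * (P / L ^ k - 1) := by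
          rw [abs_mul, abs_mul, abs_of_pos (by linarith : 0 < P / L ^ k), abs_of_pos hCN, abs_of_nonneg (by linarith : 0 ≤ P / L ^ k - 1)]
      _ ≤ e / 3 * (C * N) * (1 + e / 3) + C * N * (e / 3) := by
          apply add_le_add
          · exact mul_le_mul h1 hr2 (by linarith) (by positivity)
          · exact mul_le_mul_of_nonneg_left (by linarith) hCN.le
      _ = (e / 3 * (1 + e / 3) + e / 3) * (C * N) := by ring
      _ ≤ ε * (C * N) := by
          apply mul_le_mul_of_nonneg_right _ hCN.le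
          nlinarith
  have h3 : |c - C * N / P| = |c * P - C * N| / P := by
    rw [← abs_of_pos hPp, ← abs_div, abs_of_pos hPp]
    congr 1
    field_simp
  rw [h3, div_le_iff₀ hPp]
  calc _ ≤ _ := h2
    _ = ε * (C * N / P) * P := by field_simp

/-- For all `b ≥ 2`, `k ≥ 1`, `Q`, `B`, `m ≥ 1` and `ε, ρ, θ > 0` there are `K` and `X₀` with the following
property. Let `X ≥ X₀` and let `T` be an ARBITRARY finite set of systems of `k` linear polynomials `a i x + h i`
with `1 ≤ a i ≤ Q`, `0 ≤ h i ≤ B X` and without a fixed prime divisor. There are sets `S 1, ..., S k` of at most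
`K` exponents each, with `∑_{ν ∈ S i} b ^ ν ≤ θ X`, such that for all but at most `ρ |T|` of the systems in `T`
(in particular for all of them if `ρ |T| < 1`, for example for one given system) the system of the polynomials
`a i x + (h i + ∑_{ν ∈ S i} b ^ ν)` satisfies the formula of the conjecture with a relative error of at most `ε`,
for all `N` between `X / m` and `X`. -/
theorem result : ∀ (b k Q B m : ℕ), 2 ≤ b → 1 ≤ k → 1 ≤ m → ∀ (ε ρ θ : ℝ), 0 < ε → 0 < ρ → 0 < θ →
    ∃ K X₀ : ℕ, ∀ X : ℕ, X₀ ≤ X → ∀ T : Finset ((Fin k → ℕ) × (Fin k → ℕ)),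
      (∀ g ∈ T, NoFixedDivisor g.1 g.2 ∧ ∀ i, 1 ≤ g.1 i ∧ g.1 i ≤ Q ∧ g.2 i ≤ B * X) →
      ∃ S : Fin k → Finset ℕ, (∀ i, (S i).card ≤ K ∧ ∑ ν ∈ S i, (b : ℝ) ^ ν ≤ θ * X) ∧
        ∃ E ⊆ T, (E.card : ℝ) ≤ ρ * T.card ∧
          ∀ g ∈ T, g ∉ E → Formula ε m X g.1 (fun i => g.2 i + ∑ ν ∈ S i, b ^ ν) := by
  intro b k Q B m hb hk hm ε ρ θ hε hρ hθ
  obtain ⟨K, X₀, hmain⟩ := Pool.Agent.Y820.LF.con0u b hb k hk (Q + 1) B m (by omega) hm (min ε 1 / 3) ρ (min θ 1)
    (by have := lt_min hε one_pos; linarith) hρ (lt_min hθ one_pos) (min_le_right _ _)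
  obtain ⟨n0, hn0⟩ := conv (k := k) ε hε (Q + (B + 1) * m)
  refine ⟨K, X₀ + m * n0 + 1, fun X hX T hT => ?_⟩
  obtain ⟨S, hS1, hS2, E, hET, hEc, hE⟩ := hmain X (by omega) (fun _ => 1) (fun _ => Or.inl rfl) ((Fin k → ℕ) × (Fin k → ℕ)) T
    (fun g i => (g.1 i : ℤ)) (fun g i => (g.2 i : ℤ)) (fun g hg i => by
      obtain ⟨h1, h2, h3⟩ := (hT g hg).2 i
      refine ⟨by exact_mod_cast (by omega : g.1 i ≠ 0), ?_⟩
      rw [abs_of_nonneg (by positivity)]
      exact_mod_cast (by omega : g.1 i ≤ Q + 1)) (fun g hg i => by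
      rw [abs_of_nonneg (by positivity)]
      exact_mod_cast ((hT g hg).2 i).2.2)
  refine ⟨S, fun i => ⟨hS1 i, (hS2 i).trans (mul_le_mul_of_nonneg_right (min_le_left _ _) (Nat.cast_nonneg _))⟩, E, hET, hEc, fun g hg hgE => ?_⟩
  obtain ⟨hadm, G, hG0, hG1, hG2⟩ := hE g hg hgE (fun i => ((g.2 i + ∑ ν ∈ S i, b ^ ν : ℕ) : ℤ)) (fun i => by push_cast; ring)
    ((adm_iff g.1 g.2).2 (hT g hg).1)
  refine ⟨(adm_iff _ _).1 hadm, G, hG0, ?_, ?_⟩
  · rw [← part_eq]
    exact hG1
  · intro N hN1 hN2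
    have hN0 : 1 ≤ N := by
      by_contra hcon
      have : N = 0 := by omega
      rw [this, mul_zero] at hN2
      omega
    have hNn : n0 ≤ N := by
      by_contra hcon
      have h1 : m * N ≤ m * n0 := Nat.mul_le_mul_left _ (by omega)
      omega
    have h1 := hG2 N hN1 hN2 (pos _ _ (fun i => ((hT g hg).2 i).1) N hN0)
    rw [count_eq] at h1
    refine hn0 N hNn _ _ (fun i => ((hT g hg).2 i).1) (fun i => ?_) _ G hG0 h1
    obtain ⟨h2, h3, h4⟩ := (hT g hg).2 i
    have h5 : ∑ ν ∈ S i, b ^ ν ≤ X := by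
      have h6 := hS2 i
      have h7 : min θ 1 * (X : ℝ) ≤ X := by
        have := mul_le_mul_of_nonneg_right (min_le_right θ 1) (Nat.cast_nonneg (α := ℝ) X)
        rwa [one_mul] at this
      have h8 : ((∑ ν ∈ S i, b ^ ν : ℕ) : ℝ) ≤ X := by
        push_cast
        linarith
      exact_mod_cast h8
    calc g.1 i * N + (g.2 i + ∑ ν ∈ S i, b ^ ν) ≤ Q * N + (B * X + X) := by
          have := Nat.mul_le_mul_right N h3
          omega
      _ = Q * N + (B + 1) * X := by ring
      _ ≤ Q * N + (B + 1) * (m * N) := by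
          have := Nat.mul_le_mul_left (B + 1) hN2
          omega
      _ = (Q + (B + 1) * m) * N := by ring

end Pool.Agent.Results.MP_51e72e_nt.LinearFormsPlusPowers
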