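import Pool.Agent.Y871.LW.TopB

/-!
# Szemerédi's theorem for prime values of polynomials in windows of logarithmic length

(I) For every system of polynomials whose coefficients (without the constant ones) have only small common
prime factors, in every window of length `≥ (log X) ^ B` and for almost all vectors of constant terms in
every box with sides `≥ X`: all but few elements of every set `S` of arguments at which all the
polynomials are prime lie in `k`-term progressions in `S`.

(II) For almost all polynomials of degree `j ≥ 2` and height `≤ H` without fixed prime divisor, and for all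
lengths `(log H) ^ B ≤ K ≤ H / (log H) ^ B`: the number of prime values up to `K` is the one predicted by
Bateman and Horn, and all but `ε` times this number of the elements of every set `S` of arguments with
prime values lie in `k`-term progressions in `S`.
-/

set_option autoImplicit false

namespace Pool.Agent.Results.MP_51e72e_nt.LogarithmicWindows

open Finset Polynomial

/-- `n` is a term of a progression of `k` terms in `S` with a difference `1 ≤ d ≤ D`. -/
def InProgression (S : Finset ℕ) (k : ℕ) (D : ℝ) (n : ℕ) : Prop :=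
  ∃ b d : ℕ, 1 ≤ d ∧ (d : ℝ) ≤ D ∧ (∀ j < k, b + j * d ∈ S) ∧ ∃ j < k, n = b + j * d

open Classical in
/-- The elements of `S` which do not lie in such a progression. -/
noncomputable def outside (S : Finset ℕ) (k : ℕ) (D : ℝ) : Finset ℕ :=
  S.filter (fun n => ¬ InProgression S k D n)

/-- The `n` with `m < n ≤ m + H` such that `|F l (n) + a l|` is prime for every `l`. -/
def primeArgs {q : ℕ} (F : Fin q → ℤ[X]) (a : Fin q → ℤ) (m H : ℕ) : Finset ℕ :=
  (Ioc m (m + H)).filter (fun n : ℕ => ∀ l, ((F l).eval (n : ℤ) + a l).natAbs.Prime)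

/-- The vectors `c` with `|c i| ≤ H` for all `i ≤ j` and `c j ≥ 1`. -/
noncomputable def box (j H : ℕ) : Finset (Fin (j + 1) → ℤ) :=
  Fintype.piFinset (fun i => if (i : ℕ) = j then Icc 1 (H : ℤ) else Icc (-(H : ℤ)) H)

/-- The value at `t` of the polynomial with the coefficients `c i`. -/
def val {j : ℕ} (c : Fin (j + 1) → ℤ) (t : ℕ) : ℤ := ∑ i, c i * (t : ℤ) ^ (i : ℕ)

/-- No prime divides all the values. -/
def NoFixedDivisor {j : ℕ} (c : Fin (j + 1) → ℤ) : Prop :=
  ∀ p : ℕ, p.Prime → ∃ t : ℕ, ¬ (p : ℤ) ∣ val c t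

/-- The `t ≤ K` such that `|val c t|` is prime. -/
def primeValues {j : ℕ} (c : Fin (j + 1) → ℤ) (K : ℕ) : Finset ℕ :=
  (Icc 1 K).filter (fun t : ℕ => (val c t).natAbs.Prime)

/-- The number of `t` modulo `p` with `p ∣ val c t`. -/
def omega {j : ℕ} (c : Fin (j + 1) → ℤ) (p : ℕ) : ℕ :=
  ((range p).filter (fun t : ℕ => (p : ℤ) ∣ val c t)).card

/-- The number of prime values up to `K` predicted by the Bateman-Horn conjecture: the product of
`(1 - omega c p / p) / (1 - 1 / p)` over the primes `p ≤ z`, times the sum of `1 / log |val c t|` over the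
`t ≤ K` with `|val c t| ≥ 2`. -/
noncomputable def expected {j : ℕ} (c : Fin (j + 1) → ℤ) (z K : ℕ) : ℝ :=
  (∏ p ∈ (Icc 1 z).filter Nat.Prime, (1 - (omega c p : ℝ) / p) / (1 - 1 / (p : ℝ))) *
    ∑ t ∈ (Icc 1 K).filter (fun t : ℕ => 2 ≤ |val c t|), 1 / Real.log |((val c t : ℤ) : ℝ)|

/-- The number of `t ≤ K` with `|val c t|` prime is the expected one up to a relative error `ε`, and in
every set `S` of such `t` all elements, with the exception of at most `ε` times this number, lie in
progressions of `k` terms in `S` with a difference at most `D`. -/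
def Holds {j : ℕ} (c : Fin (j + 1) → ℤ) (k : ℕ) (ε D : ℝ) (z K : ℕ) : Prop :=
  0 < expected c z K ∧ |((primeValues c K).card : ℝ) - expected c z K| ≤ ε * expected c z K ∧
    ∀ S ⊆ primeValues c K, ((outside S k D).card : ℝ) ≤ ε * (primeValues c K).card

open Classical in
/-- **Szemerédi's theorem for prime values of polynomials in windows of logarithmic length.** -/
theorem result :
    (∀ (k q e p₀ : ℕ) (ε : ℝ), 1 ≤ k → 0 < ε → ∃ B X₀ : ℕ, ∀ X H m : ℕ, X₀ ≤ X → Real.log X ^ B ≤ H →
      ∀ F : Fin q → ℤ[X], (∀ l, (F l).natDegree ≤ e) →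
      (∀ l, ∀ p : ℕ, p.Prime → p₀ < p → ∃ i, 1 ≤ i ∧ ¬ (p : ℤ) ∣ (F l).coeff i) →
      ∀ (A : Fin q → ℤ) (Xs : Fin q → ℕ), (∀ l, X ≤ Xs l) →
      (((Fintype.piFinset fun l => Ioc (A l) (A l + Xs l)).filter (fun a => ∃ S ⊆ primeArgs F a m H,
        ε * H / Real.log X ^ q < (outside S k (Real.log X ^ B)).card)).card : ℝ) ≤ ε * ∏ l, (Xs l : ℝ)) ∧
    (∀ (j k : ℕ) (ε : ℝ), 2 ≤ j → 1 ≤ k → 0 < ε → ∃ E B H₀ : ℕ, ∀ H : ℕ, H₀ ≤ H → ∀ K : ℕ,
      Real.log H ^ B ≤ K → (K : ℝ) * Real.log H ^ B ≤ H →
      (((box j H).filter (fun c => NoFixedDivisor c ∧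
        ¬ Holds c k ε (Real.log H ^ B) ⌊Real.log H ^ E⌋₊ K)).card : ℝ) ≤ ε * (box j H).card) := by
  constructor
  · intro k q e p₀ ε hk hε
    obtain ⟨B, X₀, h⟩ := Pool.Agent.Y871.LW.uni_all k q e p₀ hk ε hε
    refine ⟨B, X₀, fun X H m hX hH F hF1 hF2 A Xs hXs => ?_⟩
    refine le_trans ?_ (h X H m hX hH F hF1 hF2 A Xs hXs)
    rw [Nat.cast_le]
    apply card_le_card
    intro a ha
    rw [mem_filter] at ha ⊢
    refine ⟨ha.1, fun hc => ?_⟩
    obtain ⟨S, hS, h1⟩ := ha.2
    have h2 := hc S hS (outside S k (Real.log X ^ B)) (filter_subset _ _)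
      (fun n hn => (mem_filter.1 hn).2)
    linarith
  · intro j k ε hj hk hε
    obtain ⟨E, B, H₀, h⟩ := Pool.Agent.Y871.LW.alm_all j k hj hk ε hε
    refine ⟨E, B, H₀, fun H hH K hK1 hK2 => ?_⟩
    refine le_trans ?_ (h H hH K hK1 hK2)
    rw [Nat.cast_le]
    have hv : ∀ (c : Fin (j + 1) → ℤ) (t : ℕ), (Pool.Agent.TH892.pol c).eval (t : ℤ) = val c t := by
      intro c t
      rw [Pool.Agent.TH892.pol_eval]
      rfl
    have hrho : ∀ (c : Fin (j + 1) → ℤ) (p : ℕ),
        Pool.Agent.H300R2.BH.rho (Pool.Agent.TH892.pol c) p = omega c p := by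
      intro c p
      unfold Pool.Agent.H300R2.BH.rho omega
      simp only [hv]
    have hpv : ∀ c : Fin (j + 1) → ℤ,
        Pool.Agent.Y871.LW.pv (Pool.Agent.TH892.pol c) K = primeValues c K := by
      intro c
      unfold Pool.Agent.Y871.LW.pv primeValues
      simp only [hv]
    have hpa : ∀ c : Fin (j + 1) → ℤ,
        Pool.Agent.H300R2.FB.pa (Pool.Agent.TH892.pol c) K = (primeValues c K).card := by
      intro c
      unfold Pool.Agent.H300R2.FB.pa primeValues
      simp only [hv]
    have hex : ∀ (c : Fin (j + 1) → ℤ) (z : ℕ), Pool.Agent.H300R2.BH.SS z (Pool.Agent.TH892.pol c) *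
        Pool.Agent.H300R2.FB.la (Pool.Agent.TH892.pol c) K = expected c z K := by
      intro c z
      unfold Pool.Agent.H300R2.BH.SS Pool.Agent.H300R2.FB.la expected
      simp only [hv, hrho]
    apply card_le_card
    intro c hc
    rw [mem_filter] at hc
    obtain ⟨hcb, hcf, hcn⟩ := hc
    rw [mem_filter]
    refine ⟨hcb, ?_, ?_⟩
    · intro p hp _ hrp
      rw [hrho] at hrp
      obtain ⟨t, ht⟩ := hcf p hp
      apply ht
      unfold omega at hrp
      have h1 : (range p).filter (fun t : ℕ => (p : ℤ) ∣ val c t) = range p := by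
        apply eq_of_subset_of_card_le (filter_subset _ _)
        rw [hrp, card_range]
      have h2 : t % p ∈ (range p).filter (fun t : ℕ => (p : ℤ) ∣ val c t) := by
        rw [h1, mem_range]
        exact Nat.mod_lt _ hp.pos
      have h3 := (mem_filter.1 h2).2
      have h4 : (p : ℤ) ∣ val c t - val c (t % p) := by
        rw [← hv, ← hv]
        refine dvd_trans ?_ (Polynomial.sub_dvd_eval_sub _ _ _)
        have h5 : ((t % p : ℕ) : ℤ) = (t : ℤ) % p := Int.natCast_mod t p
        rw [h5]
        exact Int.dvd_self_sub_emod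
      have h5 := dvd_add h4 h3
      rwa [sub_add_cancel] at h5
    · intro h1
      apply hcn
      rw [hex, hpv, hpa] at h1
      obtain ⟨h2, h3, h4⟩ := h1
      refine ⟨h2, h3, fun S hS => ?_⟩
      exact h4 S hS (outside S k (Real.log H ^ B)) (filter_subset _ _) (fun n hn => (mem_filter.1 hn).2)

end Pool.Agent.Results.MP_51e72e_nt.LogarithmicWindows
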