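import Pool.Agent.Y871.SZ.Top
import Pool.Agent.Y843.HS.Top

set_option autoImplicit false

/-!
# Progressions in the simultaneous prime values of almost all systems of polynomials

Let `F i`, `i < r`, be nonconstant integer polynomials with positive leading coefficients. For almost all
vectors `k` of constant terms, `1 ≤ k i ≤ A i ≍ x ^ deg (F i)`, such that the system `F i + k i` has no
fixed prime divisor, the set of the `n ≤ x` for which all the numbers `F i (n) + k i` are prime satisfies
Szemerédi's theorem: every subset `S` contains arithmetic progressions of `m` terms with differences at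
most `log ^ C x`, and these progressions cover all but a small part of `S`.
-/

namespace Pool.Agent.Results.MP_51e72e_nt.ProgressionsAlmostAllShifts

open Finset Polynomial

variable {r : ℕ}

/-- The value at `n` of the polynomial `F i + k i`. -/
def val (F : Fin r → ℤ[X]) (k : Fin r → ℕ) (i : Fin r) (n : ℕ) : ℤ := (F i).eval (n : ℤ) + k i

/-- The `n ≤ x` such that `F i (n) + k i` is prime for every `i`. -/
def primeArgs (F : Fin r → ℤ[X]) (k : Fin r → ℕ) (x : ℕ) : Finset ℕ :=
  (Icc 1 x).filter (fun n : ℕ => ∀ i, (val F k i n).toNat.Prime)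

/-- No prime divides all the numbers `∏ i (F i (n) + k i)`. -/
def NoFixedDivisor (F : Fin r → ℤ[X]) (k : Fin r → ℕ) : Prop :=
  ∀ p : ℕ, p.Prime → ∃ n : ℕ, ¬ (p : ℤ) ∣ ∏ i, val F k i n

/-- `n` is one of the terms of a progression of `m` terms in `S` with a difference `d ≤ D`. -/
def InProgression (S : Finset ℕ) (m : ℕ) (D : ℝ) (n : ℕ) : Prop :=
  ∃ a d : ℕ, 1 ≤ d ∧ (d : ℝ) ≤ D ∧ (∀ j < m, a + j * d ∈ S) ∧ ∃ j < m, n = a + j * d

/-- There are at least `x / log ^ C x` numbers `n ≤ x` for which all `F i (n) + k i` are prime, and in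
every set `S` of such numbers, all but at most `δ |primeArgs F k x|` of the elements lie in a progression
of `m` terms in `S` with a difference at most `log ^ C x`. -/
def SzemerediHolds (F : Fin r → ℤ[X]) (k : Fin r → ℕ) (m : ℕ) (δ : ℝ) (C x : ℕ) : Prop :=
  (x : ℝ) / Real.log x ^ C ≤ (primeArgs F k x).card ∧
  ∀ S ⊆ primeArgs F k x, ∀ T ⊆ S, (∀ n ∈ T, ¬ InProgression S m (Real.log x ^ C) n) →
    (T.card : ℝ) ≤ δ * (primeArgs F k x).card

/-- The vectors `k` with `1 ≤ k i ≤ A i`. -/
def box (A : Fin r → ℕ) : Finset (Fin r → ℕ) := Fintype.piFinset fun i => Icc 1 (A i)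

/-- The two quantities are equal up to the factor `B`. -/
def Cmp (B a b : ℕ) : Prop := a ≤ B * b ∧ b ≤ B * a

open Classical in
/-- **Szemerédi's theorem in the simultaneous prime values of almost all systems.** For all `k` with
`1 ≤ k i ≤ A i`, `A i ≍ x ^ deg (F i)`, and without fixed prime divisor, with at most
`∏ A i / log ^ U x` exceptions: in every set `S` of numbers `n ≤ x` for which all `F i (n) + k i` are
prime, all but `δ |primeArgs F k x|` of the elements lie in progressions of `m` terms in `S` with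
differences at most `log ^ C x`. -/
theorem result (F : Fin r → ℤ[X]) (hF : ∀ i, 1 ≤ (F i).natDegree ∧ 0 < (F i).leadingCoeff) (B : ℕ) (hB : 1 ≤ B)
    (U m : ℕ) (hm : 1 ≤ m) (δ : ℝ) (hδ : 0 < δ) :
    ∃ C x₀ : ℕ, ∀ x : ℕ, x₀ ≤ x → ∀ A : Fin r → ℕ, (∀ i, Cmp B (A i) (x ^ (F i).natDegree)) →
      (((box A).filter (fun k => NoFixedDivisor F k ∧ ¬ SzemerediHolds F k m δ C x)).card : ℝ) ≤
        (∏ i, (A i : ℝ)) / Real.log x ^ U :=
  Pool.Agent.Y871.SZ.sz_main Pool.Agent.Y843.HS.fin F (fun i => (hF i).1) (fun i => (hF i).2) B hB U m hm δ hδ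

end Pool.Agent.Results.MP_51e72e_nt.ProgressionsAlmostAllShifts
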